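import Pool.Agent.Helper69.MWF.BasicC

/-!
# MP_80e84b_lc (S14965): xor is primitive recursive; `xr f g ≤ jn f g`
-/

set_option autoImplicit false

namespace Pool.Agent.Helper23.MWF

open Pool.Agent.Helper95.MW Pool.Agent.Helper69.MWF

theorem primrec_two_pow : Primrec fun n : ℕ => 2 ^ n := by
  have h : Primrec fun n : ℕ => (Nat.rec 1 (fun _ v => 2 * v) n : ℕ) := by
    refine Primrec.nat_rec' (f := fun n : ℕ => n) (g := fun _ : ℕ => (1 : ℕ))
      (h := fun (_ : ℕ) (p : ℕ × ℕ) => 2 * p.2) Primrec.id (Primrec.const 1) ?_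
    exact Primrec.nat_mul.comp (Primrec.const 2) (Primrec.snd.comp Primrec.snd)
  refine h.of_eq fun n => ?_
  induction n with
  | zero => rfl
  | succ n ih => 
    rw [pow_succ, ← ih]
    exact Nat.mul_comm _ _

theorem primrec_xor : Primrec₂ fun a b : ℕ => a ^^^ b := by
  have h : Primrec fun v : ℕ × ℕ => (Nat.rec 0
      (fun n x => x + 2 ^ n * ((v.1 / 2 ^ n + v.2 / 2 ^ n) % 2)) (v.1 + v.2) : ℕ) := by
    refine Primrec.nat_rec' (f := fun v : ℕ × ℕ => v.1 + v.2) (g := fun _ : ℕ × ℕ => (0 : ℕ))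
      (h := fun (v : ℕ × ℕ) (p : ℕ × ℕ) =>
        p.2 + 2 ^ p.1 * ((v.1 / 2 ^ p.1 + v.2 / 2 ^ p.1) % 2))
      (Primrec.nat_add.comp Primrec.fst Primrec.snd) (Primrec.const 0) ?_
    have hp : Primrec fun q : (ℕ × ℕ) × (ℕ × ℕ) => 2 ^ q.2.1 :=
      primrec_two_pow.comp (Primrec.fst.comp Primrec.snd)
    refine Primrec.nat_add.comp (Primrec.snd.comp Primrec.snd) (Primrec.nat_mul.comp hp ?_)
    refine Primrec.nat_mod.comp (Primrec.nat_add.comp ?_ ?_) (Primrec.const 2)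
    · exact Primrec.nat_div.comp (Primrec.fst.comp Primrec.fst) hp
    · exact Primrec.nat_div.comp (Primrec.snd.comp Primrec.fst) hp
  refine Primrec.of_eq h ?_
  rintro ⟨a, b⟩
  have key : ∀ n : ℕ, (Nat.rec 0 (fun n x => x + 2 ^ n * ((a / 2 ^ n + b / 2 ^ n) % 2)) n : ℕ)
      = (a ^^^ b) % 2 ^ n := by
    intro n
    induction n with
    | zero => simp [Nat.mod_one]
    | succ n ih =>
      change (Nat.rec 0 (fun n x => x + 2 ^ n * ((a / 2 ^ n + b / 2 ^ n) % 2)) n : ℕ) +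
        2 ^ n * ((a / 2 ^ n + b / 2 ^ n) % 2) = _
      rw [ih, Nat.mod_pow_succ]
      congr 2
      rw [← Nat.shiftRight_eq_div_pow (a ^^^ b) n, Nat.shiftRight_xor_distrib, Nat.xor_mod_two_eq,
        Nat.shiftRight_eq_div_pow, Nat.shiftRight_eq_div_pow]
  change (Nat.rec 0 (fun n x => x + 2 ^ n * ((a / 2 ^ n + b / 2 ^ n) % 2)) (a + b) : ℕ) = a ^^^ b
  rw [key]
  refine Nat.mod_eq_of_lt (Nat.xor_lt_two_pow ?_ ?_)
  · exact lt_of_lt_of_le Nat.lt_two_pow_self (Nat.pow_le_pow_right (by norm_num) (by omega))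
  · exact lt_of_lt_of_le Nat.lt_two_pow_self (Nat.pow_le_pow_right (by norm_num) (by omega))

theorem xr_le {f g w : ℕ → ℕ} (hf : LE f w) (hg : LE g w) : LE (xr f g) w := by
  rw [le_iff] at hf hg ⊢
  have h := rt_comp (rt_primrec (w := w) (a := fun v : ℕ => v.unpair.1 ^^^ v.unpair.2)
    (primrec_xor.comp (Primrec.fst.comp Primrec.unpair) (Primrec.snd.comp Primrec.unpair)))
    (rt_pair hf hg)
  simp only [Nat.unpair_pair] at h
  exact h

theorem xr_le_jn (f g : ℕ → ℕ) : LE (xr f g) (jn f g) := xr_le (le_jn_left _ _) (le_jn_right _ _)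

end Pool.Agent.Helper23.MWF
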