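import Pool.Agent.Helper69.MWF.Stmts
import Pool.Agent.Helper23.MWF.Xor

/-!
# MP_80e84b_lc (S14965): module D1
-/

set_option autoImplicit false

open Topology Set Filter
open Nat.Partrec (Code)

namespace Pool.Agent.Helper23.MWF

open Pool.Agent.Helper95.MW Pool.Agent.Helper69.MWF

/-! ### cylinders -/

theorem cy_self (f : ℕ → ℕ) (n : ℕ) : f ∈ Cy f n := fun _ _ => rfl

theorem cy_mono {f x : ℕ → ℕ} {m n : ℕ} (h : m ≤ n) (hx : x ∈ Cy f n) : x ∈ Cy f m :=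
  fun i hi => hx i (lt_of_lt_of_le hi h)

theorem cy_trans {x y z : ℕ → ℕ} {n : ℕ} (h1 : x ∈ Cy y n) (h2 : y ∈ Cy z n) : x ∈ Cy z n :=
  fun i hi => (h1 i hi).trans (h2 i hi)

theorem cy_symm {x y : ℕ → ℕ} {n : ℕ} (h1 : x ∈ Cy y n) : y ∈ Cy x n :=
  fun i hi => (h1 i hi).symm

theorem cy_ini {x y : ℕ → ℕ} {n : ℕ} (h1 : x ∈ Cy y n) : ini x n = ini y n :=
  ini_eq_of_agree h1

theorem isOpen_cy (f : ℕ → ℕ) (n : ℕ) : IsOpen (Cy f n) := by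
  have e : Cy f n = (Set.Iio n).pi (fun i => ({f i} : Set ℕ)) := by
    ext x
    simp [Cy, Set.mem_pi]
  rw [e]
  exact isOpen_set_pi (Set.finite_Iio n) (fun i _ => isOpen_discrete _)

theorem exists_box {O : Set ((ℕ → ℕ) × (ℕ → ℕ))} (hO : O ∈ residual ((ℕ → ℕ) × (ℕ → ℕ)))
    (f g : ℕ → ℕ) (n m : ℕ) : ∃ p ∈ O, p.1 ∈ Cy f n ∧ p.2 ∈ Cy g m := by
  have hd : Dense O := dense_of_mem_residual hO
  have ho : IsOpen (Cy f n ×ˢ Cy g m) := (isOpen_cy f n).prod (isOpen_cy g m)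
  obtain ⟨p, hp1, hp2⟩ := hd.inter_open_nonempty _ ho ⟨(f, g), cy_self f n, cy_self g m⟩
  exact ⟨p, hp2, hp1.1, hp1.2⟩

theorem jn_cy {a b a' b' : ℕ → ℕ} {n : ℕ} (h1 : a ∈ Cy a' n) (h2 : b ∈ Cy b' n) :
    jn a b ∈ Cy (jn a' b') n := fun i hi => by
  unfold jn
  rw [h1 i hi, h2 i hi]

theorem cy_jn {a b a' b' : ℕ → ℕ} {n : ℕ} (h : jn a b ∈ Cy (jn a' b') n) :
    a ∈ Cy a' n ∧ b ∈ Cy b' n := by
  constructor
  · intro i hi
    exact (Nat.pair_eq_pair.1 (h i hi)).1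
  · intro i hi
    exact (Nat.pair_eq_pair.1 (h i hi)).2

/-! ### automorphisms and joins -/

theorem pi_jn' {π : (ℕ → ℕ) → (ℕ → ℕ)} (h : PiAut π) (f g : ℕ → ℕ) :
    LE (π (jn f g)) (jn (π f) (π g)) := by
  obtain ⟨k, hk1, hk2⟩ := h.surj (jn (π f) (π g))
  have h1 : LE f k := (h.iff _ _).2 ((le_jn_left _ _).trans hk2)
  have h2 : LE g k := (h.iff _ _).2 ((le_jn_right _ _).trans hk2)
  exact ((h.iff _ _).1 (jn_le h1 h2)).trans hk1

theorem jn_mono' {a b a' b' : ℕ → ℕ} (h1 : LE a a') (h2 : LE b b') : LE (jn a b) (jn a' b') :=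
  jn_le (h1.trans (le_jn_left _ _)) (h2.trans (le_jn_right _ _))

theorem le_zero' (z : ℕ → ℕ) : LE (fun _ => 0) z := by
  rw [le_iff]
  exact rt_prim (Primrec.nat_iff.1 (Primrec.const 0))

theorem comp_le {e g w : ℕ → ℕ} (h1 : LE e w) (h2 : LE g w) : LE (e ∘ g) w := by
  have h : RT w (fun n => e (g n)) := rt_comp (le_iff.1 h1) (le_iff.1 h2)
  exact le_iff.2 h

/-! ### measurability -/

theorem measurable_jn : Measurable fun p : (ℕ → ℕ) × (ℕ → ℕ) => jn p.1 p.2 := by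
  refine measurable_pi_iff.2 fun n => ?_
  have h1 : Measurable fun p : (ℕ → ℕ) × (ℕ → ℕ) => (p.1 n, p.2 n) :=
    ((measurable_pi_apply n).comp measurable_fst).prodMk
      ((measurable_pi_apply n).comp measurable_snd)
  exact (Measurable.of_discrete (f := fun v : ℕ × ℕ => Nat.pair v.1 v.2)).comp h1

theorem measurable_xr (e : ℕ → ℕ) :
    Measurable fun p : (ℕ → ℕ) × (ℕ → ℕ) => xr p.1 (e ∘ p.2) := by
  refine measurable_pi_iff.2 fun n => ?_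
  have h1 : Measurable fun p : (ℕ → ℕ) × (ℕ → ℕ) => (p.1 n, p.2 n) :=
    ((measurable_pi_apply n).comp measurable_fst).prodMk
      ((measurable_pi_apply n).comp measurable_snd)
  exact (Measurable.of_discrete (f := fun v : ℕ × ℕ => v.1 ^^^ e v.2)).comp h1

theorem SS_eq {J J' : Set (ℕ → ℕ)} {y : ℕ → ℕ} {n : ℕ} (h1 : ∀ x ∈ J', x ∈ Cy y n → x ∈ J)
    (h2 : ∀ x ∈ J, x ∈ Cy y n → ∀ s, ∃ x' ∈ J', x' ∈ Cy x s ∧ x' ∈ Cy y n) :
    SS J y n = SS J' y n := by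
  ext m
  constructor
  · rintro ⟨x, hx, hxy, s, rfl⟩
    obtain ⟨x', hx', hs, hy⟩ := h2 x hx hxy s
    exact ⟨x', hx', hy, s, by rw [cy_ini hs]⟩
  · rintro ⟨x, hx, hxy, hm⟩
    exact ⟨x, h1 x hx hxy, hxy, hm⟩

theorem ini_zp (a b : ℕ → ℕ) (s : ℕ) : zp (ini a s) (ini b s) s = ini (jn a b) s :=
  ini_jn a b s s s le_rfl le_rfl

theorem st_D1 (hEN : ST_ENUM) (hUNI : ST_UNI2)
    (hBSW : ST_BORSW) (hTREE : ST_TREE) (hKK : ST_KK) (hZIP : ST_ZIP) (hUN : ST_UN)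
    (hSUB : ST_SUB) (hRES : ST_RES) : ST_D1 := by
  intro π F G hπ hR A z hA hAz y hy n
  obtain ⟨e, hez, heA⟩ := hEN A z hA hAz
  obtain ⟨kk1, -, kk3, kk4⟩ := hKK A F π G hR e heA
  obtain ⟨⟨k1, k2⟩, hk, rfl⟩ := hy
  obtain ⟨g1, hg1, m, hm⟩ := kk3 k1 k2 hk n
  -- the maps
  set Φ : (ℕ → ℕ) × (ℕ → ℕ) → (ℕ → ℕ) := fun p => jn (F p.1) (F (xr p.1 (e ∘ p.2))) with hΦ
  have hΦm : Measurable Φ := by
    refine measurable_jn.comp (Measurable.prodMk (hR.meas.comp measurable_fst) ?_)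
    exact hR.meas.comp (measurable_xr e)
  set Ψ : (ℕ → ℕ) × (ℕ → ℕ) → (ℕ → ℕ) := fun p => jn (jn (F p.1) (F p.2)) (π z) with hΨ
  have hΨm : Measurable Ψ := by
    refine measurable_jn.comp (Measurable.prodMk ?_ measurable_const)
    exact measurable_jn.comp (Measurable.prodMk (hR.meas.comp measurable_fst)
      (hR.meas.comp measurable_snd))
  -- generic pairs
  have hgen : ∀ᶠ p in residual ((ℕ → ℕ) × (ℕ → ℕ)), p.2 ∈ G :=
    hRES.2.2.2.2.2.2.1 hR.res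
  have hP : ∀ᶠ p in residual ((ℕ → ℕ) × (ℕ → ℕ)), ∃ c : Code, segs (Φ p) = WC c (Ψ p) := by
    filter_upwards [kk1, hgen] with p hp hp2
    refine ceIn_iff.1 (le_iff_segs.1 ?_)
    have t1 := hR.te _ hp.1
    have t2 := hR.te _ hp2
    have t3 := hR.te _ hp.2.1
    have l1 : LE (xr p.1 (e ∘ p.2)) (jn (jn p.1 p.2) z) := by
      refine (xr_le_jn _ _).trans (jn_le ?_ ?_)
      · exact (le_jn_left _ _).trans (le_jn_left _ _)
      · exact comp_le (hez.trans (le_jn_right _ _)) ((le_jn_right _ _).trans (le_jn_left _ _))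
    have l2 : LE (π (xr p.1 (e ∘ p.2))) (jn (jn (π p.1) (π p.2)) (π z)) :=
      ((hπ.iff _ _).1 l1).trans ((pi_jn' hπ _ _).trans (jn_mono' (pi_jn' hπ _ _) (LE.refl _)))
    have l3 : LE (jn (jn (π p.1) (π p.2)) (π z)) (Ψ p) :=
      jn_mono' (jn_mono t1.2 t2.2) (LE.refl _)
    refine jn_le ?_ ?_
    · exact (le_jn_left _ _).trans (le_jn_left _ _)
    · exact t3.1.trans (l2.trans l3)
  obtain ⟨c, f', g', n', hn', hf', hg', hc⟩ := hUNI Code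
    (fun c => {p | segs (Φ p) = WC c (Ψ p)})
    (fun c => (hΦm.prodMk hΨm) (hBSW c)) hP k1 g1 m
  obtain ⟨u, a, ha, hu, hTu⟩ := hTREE π F G hπ hR f' n'
  obtain ⟨v, b, hb, hv, hTv⟩ := hTREE π F G hπ hR g' n'
  -- the good pairs
  set Good : Set ((ℕ → ℕ) × (ℕ → ℕ)) := {p | (p.1, xr p.1 (e ∘ p.2)) ∈ KK A G ∧ p.2 ∈ G ∧
    (p.1 ∈ Cy f' n' → p.2 ∈ Cy g' n' → segs (Φ p) = WC c (Ψ p))} with hGood
  have hGr : Good ∈ residual ((ℕ → ℕ) × (ℕ → ℕ)) := by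
    filter_upwards [kk1, hgen, hc] with p h1 h2 h3
    exact ⟨h1, h2, h3⟩
  set J' : Set (ℕ → ℕ) := {x | ∃ p ∈ Good, p.1 ∈ Cy u a ∧ p.2 ∈ Cy v b ∧ x = Φ p} with hJ'
  have hbox : ∀ p : (ℕ → ℕ) × (ℕ → ℕ), p.1 ∈ Cy u a → p.2 ∈ Cy v b →
      p.1 ∈ Cy f' n' ∧ p.2 ∈ Cy g' n' := fun p h1 h2 =>
    ⟨cy_trans (cy_mono ha h1) hu, cy_trans (cy_mono hb h2) hv⟩
  -- `J'` is c.e.
  have hce : ∀ y0 : ℕ → ℕ, CEIn (SS J' y0 0) (π z) := by
    intro y0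
    have h1 := hUN c _ (π z) (π z) (hZIP _ _ (π z) (hTu.mono (le_zero' _)) (hTv.mono (le_zero' _)))
      (LE.refl _)
    convert h1 using 1
    ext q
    constructor
    · rintro ⟨x, ⟨p, hp, hpu, hpv, rfl⟩, -, hq⟩
      have h2 := hp.2.2 (hbox p hpu hpv).1 (hbox p hpu hpv).2
      rw [h2] at hq
      obtain ⟨s, hs⟩ := hq
      refine ⟨ini (jn (F p.1) (F p.2)) s, ⟨ini (F p.1) s, ini (F p.2) s, ?_, ?_, ?_, ?_⟩, s, ?_, ?_⟩
      · exact ⟨p.1, ⟨hp.1.1, hpu⟩, s, rfl⟩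
      · exact ⟨p.2, ⟨hp.2.1, hpv⟩, s, rfl⟩
      · rw [ini_length, ini_length]
      · rw [ini_length, ini_zp]
      · rw [ini_length]
      · rw [ini_zp]
        exact hs
    · rintro ⟨p, ⟨p1, p2, ⟨x1, ⟨hx1G, hx1⟩, s1, hs1⟩, ⟨x2, ⟨hx2G, hx2⟩, s2, hs2⟩, hlen, hp⟩,
        s, hs, hdom⟩
      have e1 : p1 = ini (F x1) s1 := by
        have := congrArg dl hs1
        rwa [dl_ec, dl_ec] at this
      have e2 : p2 = ini (F x2) s2 := by
        have := congrArg dl hs2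
        rwa [dl_ec, dl_ec] at this
      have e3 : p = zp p1 p2 p1.length := by
        have := congrArg dl hp
        rwa [dl_ec, dl_ec] at this
      have e4 : s1 = s2 := by
        rw [e1, e2, ini_length, ini_length] at hlen
        exact hlen
      subst e4
      obtain ⟨m1, hm1⟩ := hR.cont x1 hx1G s1
      obtain ⟨m2, hm2⟩ := hR.cont x2 hx2G s1
      obtain ⟨q', hq', hqa, hqb⟩ := exists_box hGr x1 x2 (max m1 a) (max m2 b)
      have hqu : q'.1 ∈ Cy u a := cy_trans (cy_mono (le_max_right _ _) hqa) hx1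
      have hqv : q'.2 ∈ Cy v b := cy_trans (cy_mono (le_max_right _ _) hqb) hx2
      refine ⟨Φ q', ⟨q', hq', hqu, hqv, rfl⟩, fun i hi => absurd hi (by omega), ?_⟩
      rw [hq'.2.2 (hbox q' hqu hqv).1 (hbox q' hqu hqv).2]
      have h3 := hm1 q'.1 hq'.1.1 (cy_mono (le_max_left _ _) hqa)
      have h4 := hm2 q'.2 hq'.2.1 (cy_mono (le_max_left _ _) hqb)
      have e5 : p = ini (jn (F q'.1) (F q'.2)) s1 := by
        rw [e3, e1, e2, ini_length, ini_zp]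
        exact cy_ini (cy_symm (jn_cy h3 h4))
      refine ⟨s, ?_⟩
      rw [e5, ini_length] at hs
      rw [e5, ini_jn _ _ s s1 s hs le_rfl] at hdom
      exact hdom
  -- the point
  obtain ⟨p0, hp0, hp0u, hp0v⟩ := exists_box hGr u v a b
  obtain ⟨m4, hm4⟩ := kk4 p0.1 p0.2 hp0.1 (max a b)
  have hp0m : p0.1 ∈ Cy k1 m ∧ p0.2 ∈ Cy g1 m := by
    have := hbox p0 hp0u hp0v
    exact ⟨cy_trans (cy_mono hn' this.1) hf', cy_trans (cy_mono hn' this.2) hg'⟩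
  refine ⟨Φ p0, ⟨(p0.1, xr p0.1 (e ∘ p0.2)), hp0.1, rfl⟩, max n m4, le_max_left _ _,
    hm _ _ hp0m.1 hp0m.2 hp0.1, ?_⟩
  have hfin := hSUB J' (Φ p0) (Φ p0) 0 (max n m4) (π z) (Nat.zero_le _) (cy_self _ _) (hce _)
  convert hfin using 1
  refine SS_eq ?_ ?_
  · rintro x ⟨p, hp, -, -, rfl⟩ -
    exact ⟨(p.1, xr p.1 (e ∘ p.2)), hp.1, rfl⟩
  · rintro x ⟨⟨q1, q2⟩, hq, rfl⟩ hx s
    obtain ⟨g'', hg'', hq1, hq2⟩ := hm4 q1 q2 hq (cy_mono (le_max_right _ _) hx)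
    obtain ⟨m1, hm1⟩ := hR.cont q1 hq.1 (max s (max n m4))
    obtain ⟨m2, hm2⟩ := hR.cont q2 hq.2.1 (max s (max n m4))
    obtain ⟨q', hq', hqa, hqb⟩ := exists_box hGr q1 g'' (max (max m1 m2) (max a b))
      (max m2 (max a b))
    have hqu : q'.1 ∈ Cy u a := by
      refine cy_trans (cy_trans (cy_mono ?_ hqa) (cy_mono ?_ hq1)) hp0u <;> omega
    have hqv : q'.2 ∈ Cy v b := by
      refine cy_trans (cy_trans (cy_mono ?_ hqb) (cy_mono ?_ hg'')) hp0v <;> omega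
    have h3 := hm1 q'.1 hq'.1.1 (cy_mono (by omega) hqa)
    have h4 := hm2 (xr q'.1 (e ∘ q'.2)) hq'.1.2.1 (by
      intro i hi
      rw [hq2]
      simp only [xr, Function.comp_apply]
      rw [hqa i (by omega), hqb i (by omega)])
    have h5 : Φ q' ∈ Cy (jn (F q1) (F q2)) (max s (max n m4)) := jn_cy h3 h4
    exact ⟨Φ q', ⟨q', hq', hqu, hqv, rfl⟩, cy_mono (le_max_left _ _) h5,
      cy_trans (cy_mono (le_max_right _ _) h5) hx⟩

end Pool.Agent.Helper23.MWF
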